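import Pool.Agent.U309.ZF.Stm2

/-!
# Project ZF, package ABEL (helper333 for helper309)

If `h` is bounded on the primes and its mean over the primes `p ≤ x` tends to `L`, then
`δ ∑_p h(p) (log p) p^(-1-δ) → L` as `δ → 0+`.

The comparison of the two sums uses only that `(log n) n^(-1-δ)` decreases for `n ≥ 3` (Abel summation in
both directions); `δ ∑_p (log p) p^(-1-δ) → 1` comes from Mathlib's `L`-series of `Λ`.
-/

set_option autoImplicit false

open Filter Topology

namespace Pool.Agent.U333.ZF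

open Pool.Agent.U309.ZF ArithmeticFunction ArithmeticFunction.vonMangoldt

/-- `log n * n^(-(1+δ))` -/
noncomputable def F (δ : ℝ) (n : ℕ) : ℝ := Real.log n * (n : ℝ) ^ (-(1 + δ))

lemma F_nonneg (δ : ℝ) (n : ℕ) : 0 ≤ F δ n :=
  mul_nonneg (Real.log_natCast_nonneg n) (Real.rpow_nonneg (Nat.cast_nonneg n) _)

lemma F_summable {δ : ℝ} (hδ : 0 < δ) : Summable (F δ) := by
  have h1 : Summable (fun n : ℕ => (2 / δ) * (n : ℝ) ^ (-(1 + δ / 2))) :=
    (Real.summable_nat_rpow.2 (by linarith)).mul_left _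
  refine Summable.of_nonneg_of_le (F_nonneg δ) (fun n => ?_) h1
  rcases Nat.eq_zero_or_pos n with rfl | hn
  · have : F δ 0 = 0 := by simp [F]
    rw [this]; positivity
  · have h2 := Real.log_natCast_le_rpow_div n (show 0 < δ / 2 by linarith)
    have hn' : (0 : ℝ) < n := by exact_mod_cast hn
    have h3 : (n : ℝ) ^ (-(1 + δ / 2)) = (n : ℝ) ^ (δ / 2) * (n : ℝ) ^ (-(1 + δ)) := by
      rw [← Real.rpow_add hn']; congr 1; ring
    rw [h3, F]
    calc Real.log n * (n : ℝ) ^ (-(1 + δ))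
        ≤ ((n : ℝ) ^ (δ / 2) / (δ / 2)) * (n : ℝ) ^ (-(1 + δ)) :=
          mul_le_mul_of_nonneg_right h2 (Real.rpow_nonneg hn'.le _)
      _ = (2 / δ) * ((n : ℝ) ^ (δ / 2) * (n : ℝ) ^ (-(1 + δ))) := by field_simp

lemma F_antitone {δ : ℝ} (hδ : 0 < δ) : Antitone (fun n : ℕ => F δ (n + 3)) := by
  intro m n hmn
  have hA := Real.log_div_self_rpow_antitoneOn (show (0 : ℝ) < 1 + δ by linarith)
  have hexp : Real.exp (1 + δ)⁻¹ ≤ 3 := by
    have h1 : (1 + δ)⁻¹ ≤ 1 := inv_le_one_of_one_le₀ (by linarith)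
    calc Real.exp (1 + δ)⁻¹ ≤ Real.exp 1 := Real.exp_le_exp.2 h1
      _ ≤ 3 := by linarith [Real.exp_one_lt_d9]
  have hm : (((m + 3 : ℕ) : ℝ)) ∈ Set.Ici (Real.exp (1 + δ)⁻¹) := by
    simp only [Set.mem_Ici]; push_cast; linarith [(Nat.cast_nonneg m : (0 : ℝ) ≤ m)]
  have hn : (((n + 3 : ℕ) : ℝ)) ∈ Set.Ici (Real.exp (1 + δ)⁻¹) := by
    simp only [Set.mem_Ici]; push_cast; linarith [(Nat.cast_nonneg n : (0 : ℝ) ≤ n)]
  have h := hA hm hn (by exact_mod_cast Nat.add_le_add_right hmn 3)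
  simp only [F]
  rw [Real.rpow_neg (Nat.cast_nonneg _), Real.rpow_neg (Nat.cast_nonneg _), ← div_eq_mul_inv,
    ← div_eq_mul_inv]
  exact h

/-- Abel summation, lower bound. -/
lemma abel_lower (e φ : ℕ → ℝ) (C : ℝ) (hC : 0 ≤ C) (hφ : Antitone φ) (hφ0 : ∀ n, 0 ≤ φ n)
    (hE : ∀ n, -C ≤ ∑ i ∈ Finset.range n, e i) (N : ℕ) :
    -(C * φ 0) ≤ ∑ i ∈ Finset.range N, e i * φ i := by
  have key : ∀ N : ℕ, ((∑ i ∈ Finset.range (N + 1), e i) + C) * φ N - C * φ 0 ≤
      ∑ i ∈ Finset.range (N + 1), e i * φ i := by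
    intro N
    induction N with
    | zero => simp; ring_nf; exact le_refl _
    | succ N ih =>
      rw [Finset.sum_range_succ (fun i => e i * φ i) (N + 1), Finset.sum_range_succ e (N + 1)]
      have h1 : 0 ≤ (∑ i ∈ Finset.range (N + 1), e i) + C := by linarith [hE (N + 1)]
      have h2 := mul_le_mul_of_nonneg_left (hφ (Nat.le_succ N)) h1
      have h3 : ((∑ i ∈ Finset.range (N + 1), e i) + C) * φ (N + 1) ≤
          ((∑ i ∈ Finset.range (N + 1), e i) + C) * φ N := h2
      nlinarith [h3, ih]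
  cases N with
  | zero => simp; exact mul_nonneg hC (hφ0 0)
  | succ N =>
    have h1 : 0 ≤ (∑ i ∈ Finset.range (N + 1), e i) + C := by linarith [hE (N + 1)]
    have h2 := mul_nonneg h1 (hφ0 N)
    linarith [key N]

/-- Abel summation in both directions. -/
lemma abel_abs (c d φ : ℕ → ℝ) (ε C : ℝ) (hC : 0 ≤ C) (hφ : Antitone φ) (hφ0 : ∀ n, 0 ≤ φ n)
    (hE : ∀ n, |∑ i ∈ Finset.range n, c i| ≤ ε * ∑ i ∈ Finset.range n, d i + C) (N : ℕ) :
    |∑ i ∈ Finset.range N, c i * φ i| ≤ ε * ∑ i ∈ Finset.range N, d i * φ i + C * φ 0 := by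
  have h1 := abel_lower (fun i => ε * d i - c i) φ C hC hφ hφ0 (fun n => by
    rw [Finset.sum_sub_distrib, ← Finset.mul_sum]
    linarith [(abs_le.1 (hE n)).2]) N
  have h2 := abel_lower (fun i => ε * d i + c i) φ C hC hφ hφ0 (fun n => by
    rw [Finset.sum_add_distrib, ← Finset.mul_sum]
    linarith [(abs_le.1 (hE n)).1]) N
  have e1 : ∑ i ∈ Finset.range N, (ε * d i - c i) * φ i =
      ε * ∑ i ∈ Finset.range N, d i * φ i - ∑ i ∈ Finset.range N, c i * φ i := by
    rw [Finset.mul_sum, ← Finset.sum_sub_distrib]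
    exact Finset.sum_congr rfl fun i _ => by ring
  have e2 : ∑ i ∈ Finset.range N, (ε * d i + c i) * φ i =
      ε * ∑ i ∈ Finset.range N, d i * φ i + ∑ i ∈ Finset.range N, c i * φ i := by
    rw [Finset.mul_sum, ← Finset.sum_add_distrib]
    exact Finset.sum_congr rfl fun i _ => by ring
  rw [e1] at h1
  rw [e2] at h2
  rw [abs_le]
  constructor <;> linarith

/-- `W` as a sum over all `n`. -/
lemma W_eq (h : ℕ → ℝ) (δ : ℝ) :
    W h δ 0 = ∑' n : ℕ, (if n.Prime then h n else 0) * F δ n := by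
  have h1 : W h δ 0 = ∑' p : {n : ℕ // n.Prime}, (fun n : ℕ => h n * F δ n) p := by
    unfold W
    refine tsum_congr fun p => ?_
    simp [F]
  have h2 : ∑' p : {n : ℕ // n.Prime}, (fun n : ℕ => h n * F δ n) p =
      ∑' n : ℕ, Set.indicator {n : ℕ | n.Prime} (fun n : ℕ => h n * F δ n) n :=
    tsum_subtype {n : ℕ | n.Prime} (fun n : ℕ => h n * F δ n)
  rw [h1, h2]
  refine tsum_congr fun n => ?_
  by_cases hn : n.Prime
  · simp [Set.indicator, hn]
  · simp [Set.indicator, hn]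

lemma summable_mul {c : ℕ → ℝ} {M : ℝ} (hc : ∀ n, |c n| ≤ M) {δ : ℝ} (hδ : 0 < δ) :
    Summable (fun n => c n * F δ n) := by
  refine Summable.of_norm_bounded ((F_summable hδ).mul_left M) (fun n => ?_)
  rw [Real.norm_eq_abs, abs_mul, abs_of_nonneg (F_nonneg δ n)]
  exact mul_le_mul_of_nonneg_right (hc n) (F_nonneg δ n)

/-! ### The case `h = 1` -/

/-- the sum over the primes with weight `1` -/
noncomputable def P (δ : ℝ) : ℝ := ∑' n : ℕ, (if n.Prime then (1 : ℝ) else 0) * F δ n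

lemma VM_eq {x : ℝ} (hx : 1 < x) :
    ∑' n : ℕ, residueClass (1 : ZMod 1) n / (n : ℝ) ^ x =
      (LFunctionResidueClassAux (1 : ZMod 1) x).re + 1 / (x - 1) := by
  have ha : IsUnit (1 : ZMod 1) := isUnit_one
  refine Complex.ofReal_injective ?_
  simp only [Complex.ofReal_tsum, Complex.ofReal_div, Complex.ofReal_cpow (Nat.cast_nonneg _),
    Complex.ofReal_natCast, Complex.ofReal_add, Complex.ofReal_sub, Complex.ofReal_one]
  rw [← LFunctionResidueClassAux_real ha hx,
    eqOn_LFunctionResidueClassAux ha <| Set.mem_ofPred.mpr (Complex.ofReal_re x ▸ hx)]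
  simp only [Nat.totient_one, Nat.cast_one, inv_one, sub_add_cancel]
  unfold LSeries LSeries.term
  refine tsum_congr fun n ↦ ?_
  split_ifs with hn
  · simp only [hn, residueClass_apply_zero, Complex.ofReal_zero, zero_div]
  · rfl

lemma VM_bound : ∃ C : ℝ, ∀ x : ℝ, 1 < x → x ≤ 2 →
    |(∑' n : ℕ, residueClass (1 : ZMod 1) n / (n : ℝ) ^ x) - 1 / (x - 1)| ≤ C := by
  have this : ContinuousOn (fun x : ℝ ↦ (LFunctionResidueClassAux (1 : ZMod 1) x).re)
      (Set.Icc 1 2) :=
    Complex.continuous_re.continuousOn.comp (t := Set.univ)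
      (continuousOn_LFunctionResidueClassAux (1 : ZMod 1))
      (fun ⦃x⦄ a ↦ trivial) |>.comp Complex.continuous_ofReal.continuousOn fun x hx ↦ by
        simpa only [Set.mem_ofPred_eq, Complex.ofReal_re] using hx.1
  obtain ⟨C, hC⟩ := isCompact_Icc.exists_bound_of_continuousOn this
  refine ⟨C, fun x h1 h2 => ?_⟩
  rw [VM_eq h1, add_sub_cancel_right]
  have := hC x ⟨h1.le, h2⟩
  rwa [Real.norm_eq_abs] at this

lemma rc_eq (n : ℕ) : residueClass (1 : ZMod 1) n = ArithmeticFunction.vonMangoldt n := by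
  unfold residueClass
  rw [Set.indicator_of_mem]
  exact Subsingleton.elim _ _

lemma VM_summable {x : ℝ} (hx : 1 < x) :
    Summable fun n : ℕ => residueClass (1 : ZMod 1) n / (n : ℝ) ^ x :=
  LSeries.summable_real_of_abscissaOfAbsConv_lt <|
    (abscissaOfAbsConv_residueClass_le_one (1 : ZMod 1)).trans_lt <| mod_cast hx

lemma P_bound : ∃ C : ℝ, ∀ δ : ℝ, 0 < δ → δ ≤ 1 → |P δ - 1 / δ| ≤ C := by
  obtain ⟨C, hC⟩ := VM_bound
  have hnp := summable_residueClass_non_primes_div (1 : ZMod 1)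
  set C₀ := ∑' n : ℕ, (if n.Prime then 0 else residueClass (1 : ZMod 1) n) / n with hC₀
  refine ⟨C + C₀, fun δ h0 h1 => ?_⟩
  have hx : (1 : ℝ) < 1 + δ := by linarith
  have hV := hC (1 + δ) hx (by linarith)
  rw [add_sub_cancel_left] at hV
  -- split
  have hs1 : Summable (fun n : ℕ => (if n.Prime then (1 : ℝ) else 0) * F δ n) :=
    summable_mul (M := 1) (fun n => by split_ifs <;> simp) h0
  have hle : ∀ n : ℕ, (if n.Prime then 0 else residueClass (1 : ZMod 1) n) / (n : ℝ) ^ (1 + δ) ≤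
      (if n.Prime then 0 else residueClass (1 : ZMod 1) n) / n := by
    intro n
    rcases n.eq_zero_or_pos with rfl | hn
    · simp
    · refine div_le_div_of_nonneg_left ?_ (mod_cast hn) ?_
      · split_ifs
        · exact le_refl _
        · exact residueClass_nonneg _ n
      · conv_lhs => rw [← Real.rpow_one n]
        exact Real.rpow_le_rpow_of_exponent_le (by exact_mod_cast hn) hx.le
  have hnn : ∀ n : ℕ, 0 ≤ (if n.Prime then 0 else residueClass (1 : ZMod 1) n) /
      (n : ℝ) ^ (1 + δ) := by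
    intro n
    refine div_nonneg ?_ (Real.rpow_nonneg (Nat.cast_nonneg n) _)
    split_ifs
    · exact le_refl _
    · exact residueClass_nonneg _ n
  have hs2 : Summable (fun n : ℕ => (if n.Prime then 0 else residueClass (1 : ZMod 1) n) /
      (n : ℝ) ^ (1 + δ)) := Summable.of_nonneg_of_le hnn hle hnp
  have hsum : ∑' n : ℕ, residueClass (1 : ZMod 1) n / (n : ℝ) ^ (1 + δ) =
      P δ + ∑' n : ℕ, (if n.Prime then 0 else residueClass (1 : ZMod 1) n) /
        (n : ℝ) ^ (1 + δ) := by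
    rw [P, ← hs1.tsum_add hs2]
    refine tsum_congr fun n => ?_
    by_cases hn : n.Prime
    · have hn0 : (0 : ℝ) < n := by exact_mod_cast hn.pos
      simp only [hn, if_true, one_mul, zero_div, add_zero, F, rc_eq]
      rw [ArithmeticFunction.vonMangoldt_apply_prime hn, Real.rpow_neg hn0.le, div_eq_mul_inv]
    · simp only [hn, if_false, zero_mul, zero_add]
  have hb1 : 0 ≤ ∑' n : ℕ, (if n.Prime then 0 else residueClass (1 : ZMod 1) n) /
      (n : ℝ) ^ (1 + δ) := tsum_nonneg hnn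
  have hb2 : ∑' n : ℕ, (if n.Prime then 0 else residueClass (1 : ZMod 1) n) /
      (n : ℝ) ^ (1 + δ) ≤ C₀ := hs2.tsum_le_tsum hle hnp
  rw [hsum] at hV
  rw [abs_le] at hV ⊢
  constructor <;> linarith [hV.1, hV.2]

lemma P_tendsto : Tendsto (fun δ : ℝ => δ * P δ) (𝓝[>] 0) (𝓝 1) := by
  obtain ⟨C, hC⟩ := P_bound
  have hz : Tendsto (fun δ : ℝ => δ * C) (𝓝[>] 0) (𝓝 0) := by
    have : Tendsto (fun δ : ℝ => δ * C) (𝓝 0) (𝓝 (0 * C)) := tendsto_id.mul_const C
    rw [zero_mul] at this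
    exact this.mono_left nhdsWithin_le_nhds
  have h1 : Tendsto (fun δ : ℝ => δ * P δ - 1) (𝓝[>] 0) (𝓝 0) := by
    refine squeeze_zero_norm' ?_ hz
    filter_upwards [Ioc_mem_nhdsGT (show (0 : ℝ) < 1 by norm_num)] with δ hδ
    have h := hC δ hδ.1 hδ.2
    have he : δ * P δ - 1 = δ * (P δ - 1 / δ) := by
      have := hδ.1.ne'
      field_simp
    rw [he, Real.norm_eq_abs, abs_mul, abs_of_pos hδ.1]
    exact mul_le_mul_of_nonneg_left h hδ.1.le
  have := h1.add_const 1
  simpa using this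

/-! ### The general case -/

lemma filter_sum (h : ℕ → ℝ) (L : ℝ) (x : ℕ) :
    ∑ n ∈ Finset.range (x + 1), (if n.Prime then h n - L else 0) =
      (∑ p ∈ (Finset.range (x + 1)).filter Nat.Prime, h p) -
        L * (((Finset.range (x + 1)).filter Nat.Prime).card : ℝ) := by
  rw [← Finset.sum_filter, Finset.sum_sub_distrib, Finset.sum_const, nsmul_eq_mul]
  ring

lemma filter_card (x : ℕ) :
    ∑ n ∈ Finset.range (x + 1), (if n.Prime then (1 : ℝ) else 0) =
      (((Finset.range (x + 1)).filter Nat.Prime).card : ℝ) := by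
  rw [← Finset.sum_filter, Finset.sum_const, nsmul_eq_mul, mul_one]

/-- the partial sums of `h - L` over the primes -/
lemma partial_bound {h : ℕ → ℝ} {L : ℝ} (hL : Tendsto (primeMean h) atTop (𝓝 L)) {ε : ℝ}
    (hε : 0 < ε) : ∃ C : ℝ, 0 ≤ C ∧ ∀ n : ℕ,
      |∑ i ∈ Finset.range n, (if i.Prime then h i - L else 0)| ≤
        ε * ∑ i ∈ Finset.range n, (if i.Prime then (1 : ℝ) else 0) + C := by
  obtain ⟨N, hN⟩ := Filter.eventually_atTop.1 ((Metric.tendsto_nhds.1 hL) ε hε)
  refine ⟨∑ i ∈ Finset.range (N + 1), |if i.Prime then h i - L else 0|,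
    Finset.sum_nonneg fun i _ => abs_nonneg _, fun n => ?_⟩
  have hD : 0 ≤ ∑ i ∈ Finset.range n, (if i.Prime then (1 : ℝ) else 0) :=
    Finset.sum_nonneg fun i _ => by split_ifs <;> norm_num
  have hC0 : 0 ≤ ∑ i ∈ Finset.range (N + 1), |if i.Prime then h i - L else 0| :=
    Finset.sum_nonneg fun i _ => abs_nonneg _
  rcases Nat.lt_or_ge n (N + 1) with hn | hn
  · have h1 : |∑ i ∈ Finset.range n, (if i.Prime then h i - L else 0)| ≤
        ∑ i ∈ Finset.range (N + 1), |if i.Prime then h i - L else 0| :=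
      (Finset.abs_sum_le_sum_abs _ _).trans
        (Finset.sum_le_sum_of_subset_of_nonneg (Finset.range_mono hn.le)
          fun i _ _ => abs_nonneg _)
    have := mul_nonneg hε.le hD
    linarith
  · obtain ⟨x, rfl⟩ : ∃ x, n = x + 1 := ⟨n - 1, by omega⟩
    have hx : N ≤ x := by omega
    have h1 := hN x hx
    rw [Real.dist_eq] at h1
    rw [filter_sum, filter_card]
    set A := ∑ p ∈ (Finset.range (x + 1)).filter Nat.Prime, h p with hA
    set c := (((Finset.range (x + 1)).filter Nat.Prime).card : ℝ) with hc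
    have h2 : primeMean h x = A / c := rfl
    rw [h2] at h1
    have hc0 : 0 ≤ c := Nat.cast_nonneg _
    rcases hc0.eq_or_lt with hz | hpos
    · have hcard : ((Finset.range (x + 1)).filter Nat.Prime) = ∅ := by
        have h0 : (((Finset.range (x + 1)).filter Nat.Prime).card : ℝ) = 0 := hz.symm
        exact Finset.card_eq_zero.1 (Nat.cast_eq_zero.1 h0)
      have : A = 0 := by rw [hA, hcard, Finset.sum_empty]
      rw [this, ← hz]
      simpa using hC0
    · have h3 : A - L * c = (A / c - L) * c := by field_simp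
      rw [h3, abs_mul, abs_of_pos hpos]
      have := mul_le_mul_of_nonneg_right h1.le hpos.le
      linarith

/-- the comparison of the two sums -/
lemma compare {h : ℕ → ℝ} {L M : ℝ} (hM : ∀ p : ℕ, p.Prime → |h p| ≤ M)
    (hL : Tendsto (primeMean h) atTop (𝓝 L)) {ε : ℝ} (hε : 0 < ε) :
    ∃ C : ℝ, 0 ≤ C ∧ ∀ δ : ℝ, 0 < δ → δ ≤ 1 → |W h δ 0 - L * P δ| ≤ ε * P δ + C := by
  obtain ⟨C, hC0, hC⟩ := partial_bound hL hε
  set c : ℕ → ℝ := fun n => if n.Prime then h n - L else 0 with hc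
  set d : ℕ → ℝ := fun n => if n.Prime then (1 : ℝ) else 0 with hd
  have hM0 : 0 ≤ M := (abs_nonneg _).trans (hM 2 Nat.prime_two)
  have hcb : ∀ n, |c n| ≤ M + |L| := by
    intro n
    simp only [hc]
    split_ifs with hn
    · exact (abs_sub _ _).trans (add_le_add (hM n hn) (le_refl _))
    · rw [abs_zero]; positivity
  have hdb : ∀ n, |d n| ≤ 1 := by
    intro n; simp only [hd]; split_ifs <;> simp
  have hd0 : ∀ n, 0 ≤ d n := by
    intro n; simp only [hd]; split_ifs <;> norm_num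
  set C₂ := C + ε * ∑ i ∈ Finset.range 3, d i + |∑ i ∈ Finset.range 3, c i| with hC₂
  have hC₂0 : 0 ≤ C₂ := by
    have := Finset.sum_nonneg (s := Finset.range 3) (f := d) fun i _ => hd0 i
    positivity
  have hE : ∀ n, |∑ i ∈ Finset.range n, c (i + 3)| ≤
      ε * ∑ i ∈ Finset.range n, d (i + 3) + C₂ := by
    intro n
    have h1 : ∑ i ∈ Finset.range (n + 3), c i =
        ∑ i ∈ Finset.range n, c (i + 3) + ∑ i ∈ Finset.range 3, c i := by
      rw [add_comm n 3, Finset.sum_range_add, add_comm]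
      congr 1
      exact Finset.sum_congr rfl fun i _ => by rw [add_comm]
    have h2 : ∑ i ∈ Finset.range (n + 3), d i =
        ∑ i ∈ Finset.range n, d (i + 3) + ∑ i ∈ Finset.range 3, d i := by
      rw [add_comm n 3, Finset.sum_range_add, add_comm]
      congr 1
      exact Finset.sum_congr rfl fun i _ => by rw [add_comm]
    have h3 := hC (n + 3)
    change |∑ i ∈ Finset.range (n + 3), c i| ≤ ε * ∑ i ∈ Finset.range (n + 3), d i + C at h3
    rw [h1, h2] at h3
    have h4 : |∑ i ∈ Finset.range n, c (i + 3)| ≤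
        |∑ i ∈ Finset.range n, c (i + 3) + ∑ i ∈ Finset.range 3, c i| +
          |∑ i ∈ Finset.range 3, c i| := by
      have := abs_sub (∑ i ∈ Finset.range n, c (i + 3) + ∑ i ∈ Finset.range 3, c i)
        (∑ i ∈ Finset.range 3, c i)
      rwa [add_sub_cancel_right] at this
    rw [hC₂]
    linarith
  refine ⟨C₂ * Real.log 3 + ∑ i ∈ Finset.range 3, (M + |L|) * Real.log i,
    add_nonneg (mul_nonneg hC₂0 (Real.log_nonneg (by norm_num)))
      (Finset.sum_nonneg fun i _ => mul_nonneg (by positivity) (Real.log_natCast_nonneg i)),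
    fun δ h0 h1 => ?_⟩
  have hF : ∀ n, F δ n ≤ Real.log n := by
    intro n
    rcases n.eq_zero_or_pos with rfl | hn
    · simp [F]
    · have hn1 : (1 : ℝ) ≤ n := by exact_mod_cast hn
      have : (n : ℝ) ^ (-(1 + δ)) ≤ 1 := Real.rpow_le_one_of_one_le_of_nonpos hn1 (by linarith)
      calc F δ n = Real.log n * (n : ℝ) ^ (-(1 + δ)) := rfl
        _ ≤ Real.log n * 1 := mul_le_mul_of_nonneg_left this (Real.log_natCast_nonneg n)
        _ = Real.log n := mul_one _
  have sc := summable_mul hcb h0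
  have sd := summable_mul hdb h0
  have sh : Summable (fun n : ℕ => (if n.Prime then h n else 0) * F δ n) :=
    summable_mul (M := M) (fun n => by
      split_ifs with hn
      · exact hM n hn
      · simpa using hM0) h0
  have hPd : P δ = ∑' n, d n * F δ n := rfl
  have hdiff : W h δ 0 - L * P δ = ∑' n, c n * F δ n := by
    rw [W_eq, hPd, ← tsum_mul_left, ← sh.tsum_sub (sd.mul_left L)]
    refine tsum_congr fun n => ?_
    simp only [hc, hd]
    split_ifs <;> ring
  have hsplit : ∑' n, c n * F δ n = ∑ i ∈ Finset.range 3, c i * F δ i +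
      ∑' n, c (n + 3) * F δ (n + 3) := (sc.sum_add_tsum_nat_add 3).symm
  have hsplitd : P δ = ∑ i ∈ Finset.range 3, d i * F δ i +
      ∑' n, d (n + 3) * F δ (n + 3) := by
    rw [hPd]; exact (sd.sum_add_tsum_nat_add 3).symm
  have hpd : 0 ≤ ∑ i ∈ Finset.range 3, d i * F δ i :=
    Finset.sum_nonneg fun i _ => mul_nonneg (hd0 i) (F_nonneg δ i)
  have tc := ((summable_nat_add_iff 3).2 sc).hasSum.tendsto_sum_nat
  have td := ((summable_nat_add_iff 3).2 sd).hasSum.tendsto_sum_nat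
  have hlim : |∑' n, c (n + 3) * F δ (n + 3)| ≤
      ε * ∑' n, d (n + 3) * F δ (n + 3) + C₂ * F δ 3 := by
    refine le_of_tendsto_of_tendsto' tc.abs ((td.const_mul ε).add_const _) fun N => ?_
    have := abel_abs (fun n => c (n + 3)) (fun n => d (n + 3)) (fun n => F δ (n + 3)) ε C₂ hC₂0
      (F_antitone h0) (fun n => F_nonneg δ _) hE N
    simpa using this
  have hsmall : |∑ i ∈ Finset.range 3, c i * F δ i| ≤
      ∑ i ∈ Finset.range 3, (M + |L|) * Real.log i := by
    refine (Finset.abs_sum_le_sum_abs _ _).trans (Finset.sum_le_sum fun i _ => ?_)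
    rw [abs_mul, abs_of_nonneg (F_nonneg δ i)]
    exact mul_le_mul (hcb i) (hF i) (F_nonneg δ i) (by positivity)
  have hF3 : C₂ * F δ 3 ≤ C₂ * Real.log 3 := by
    have := mul_le_mul_of_nonneg_left (hF 3) hC₂0
    simpa using this
  rw [hdiff, hsplit]
  have h5 := abs_add_le (∑ i ∈ Finset.range 3, c i * F δ i) (∑' n, c (n + 3) * F δ (n + 3))
  have h6 : ε * ∑' n, d (n + 3) * F δ (n + 3) ≤ ε * P δ :=
    mul_le_mul_of_nonneg_left (by rw [hsplitd]; linarith) hε.le
  linarith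

/-- **Package ABEL.** -/
theorem t_ABEL : S_ABEL := by
  intro h L M hM hL
  have hz : ∀ C : ℝ, Tendsto (fun δ : ℝ => δ * C) (𝓝[>] 0) (𝓝 0) := by
    intro C
    have : Tendsto (fun δ : ℝ => δ * C) (𝓝 0) (𝓝 (0 * C)) := tendsto_id.mul_const C
    rw [zero_mul] at this
    exact this.mono_left nhdsWithin_le_nhds
  have key : Tendsto (fun δ : ℝ => δ * W h δ 0 - L * (δ * P δ)) (𝓝[>] 0) (𝓝 0) := by
    rw [Metric.tendsto_nhds]
    intro ε hε
    obtain ⟨C, hC0, hC⟩ := compare hM hL (show 0 < ε / 4 by linarith)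
    have h1 : ∀ᶠ δ : ℝ in 𝓝[>] 0, δ * P δ < 2 :=
      P_tendsto.eventually_lt_const (by norm_num)
    have h2 : ∀ᶠ δ : ℝ in 𝓝[>] 0, δ * C < ε / 4 := (hz C).eventually_lt_const (by linarith)
    filter_upwards [h1, h2, Ioc_mem_nhdsGT (show (0 : ℝ) < 1 by norm_num)] with δ a1 a2 hδ
    have h3 := hC δ hδ.1 hδ.2
    rw [Real.dist_eq, sub_zero]
    have he : δ * W h δ 0 - L * (δ * P δ) = δ * (W h δ 0 - L * P δ) := by ring
    rw [he, abs_mul, abs_of_pos hδ.1]
    have h4 := mul_le_mul_of_nonneg_left h3 hδ.1.le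
    nlinarith [h4, a1, a2]
  have h5 := key.add (P_tendsto.const_mul L)
  rw [zero_add, mul_one] at h5
  refine h5.congr fun δ => ?_
  ring

end Pool.Agent.U333.ZF

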